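import Pool.Agent.USC.Main

set_option autoImplicit false

/-!
# MP_4086d8_co: a uniform scale for characteristic polynomials in difference sets

For every `d ≥ 2` and every `α > 0` there is an integer `k ≥ 1` such that every set of trace-zero
integer matrices of upper Banach density at least `α` is `k`-good.
-/

namespace Pool.Agent.Results.MP_4086d8_co.UniformScale

open Filter

noncomputable section

/-- the index set of the `d ^ 2 - 1` coordinates: all places `(i, j)` except the last diagonal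
one -/
abbrev Place (d : ℕ) : Type :=
  {p : Fin d × Fin d // ¬ (p.1.val + 1 = d ∧ p.2.val + 1 = d)}

/-- the coordinates of a trace-zero matrix, a point of `ℤ ^ (d ^ 2 - 1)` -/
def coords {d : ℕ} (X : Matrix (Fin d) (Fin d) ℤ) : Place d → ℤ := fun p => X p.1.1 p.1.2

/-- the proportion of the box `∏ [a j, b j)`, where `q = (a, b)`, that lies in `S` -/
def boxRatio {J : Type} [Fintype J] (S : Set (J → ℤ)) (q : (J → ℤ) × (J → ℤ)) : ℝ :=
  ((S ∩ {x | ∀ j, q.1 j ≤ x j ∧ x j < q.2 j}).ncard : ℝ) / ∏ j, ((q.2 j : ℝ) - (q.1 j : ℝ))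

/-- the upper Banach density: the limsup of the proportions when all side lengths tend to
infinity -/
def upperBanach {J : Type} [Fintype J] (S : Set (J → ℤ)) : ℝ :=
  limsup (boxRatio S)
    (⨅ N : ℕ, 𝓟 {q : (J → ℤ) × (J → ℤ) | ∀ j, (N : ℤ) ≤ q.2 j - q.1 j})

/-- `E` is `k`-good: for every trace-zero integer matrix `A` some difference of two members of `E`
has the characteristic polynomial of `k • A` -/
def IsGood {d : ℕ} (k : ℕ) (E : Set (Matrix (Fin d) (Fin d) ℤ)) : Prop :=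
  ∀ A : Matrix (Fin d) (Fin d) ℤ, A.trace = 0 →
    ∃ X ∈ E, ∃ Y ∈ E, (X - Y).charpoly = ((k : ℤ) • A).charpoly

theorem boxRatio_nonneg {J : Type} [Fintype J] (S : Set (J → ℤ)) (q : (J → ℤ) × (J → ℤ))
    (hq : ∀ j, ((0 : ℕ) : ℤ) ≤ q.2 j - q.1 j) : 0 ≤ boxRatio S q := by
  refine div_nonneg (Nat.cast_nonneg _) (Finset.prod_nonneg fun j _ => ?_)
  have h1 : (q.1 j : ℝ) ≤ q.2 j := by
    have h2 := hq j
    have h3 : q.1 j ≤ q.2 j := by
      rw [Nat.cast_zero] at h2
      exact sub_nonneg.1 h2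
    exact_mod_cast h3
  exact sub_nonneg.2 h1

instance neBot_boxes {J : Type} :
    NeBot (⨅ N : ℕ, 𝓟 {q : (J → ℤ) × (J → ℤ) | ∀ j, (N : ℤ) ≤ q.2 j - q.1 j}) := by
  refine iInf_neBot_of_directed' ?_ ?_
  · refine directed_of_isDirected_le fun m n hmn => ?_
    refine principal_mono.2 fun q hq j => ?_
    exact le_trans (by exact_mod_cast hmn) (hq j)
  · intro N
    refine principal_neBot_iff.2 ⟨(fun _ => 0, fun _ => N), fun j => ?_⟩
    show (N : ℤ) ≤ (N : ℤ) - 0
    rw [sub_zero]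

theorem dense_of_le {J : Type} [Fintype J] (S : Set (J → ℤ)) (α : ℝ)
    (h : α ≤ upperBanach S) : Pool.Agent.USC.Dense S α := by
  intro ε hε N
  have h0 : ∀ M : ℕ, {q : (J → ℤ) × (J → ℤ) | ∀ j, (M : ℤ) ≤ q.2 j - q.1 j} ∈
      (⨅ N : ℕ, 𝓟 {q : (J → ℤ) × (J → ℤ) | ∀ j, (N : ℤ) ≤ q.2 j - q.1 j}) := fun M =>
    mem_iInf_of_mem M (mem_principal_self _)
  have hcob : IsCoboundedUnder (· ≤ ·)
      (⨅ N : ℕ, 𝓟 {q : (J → ℤ) × (J → ℤ) | ∀ j, (N : ℤ) ≤ q.2 j - q.1 j}) (boxRatio S) := by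
    refine IsBoundedUnder.isCoboundedUnder_le ?_
    exact ⟨0, eventually_map.2 (mem_of_superset (h0 0) fun q hq => boxRatio_nonneg S q hq)⟩
  have h1 : ∃ᶠ q in (⨅ N : ℕ, 𝓟 {q : (J → ℤ) × (J → ℤ) | ∀ j, (N : ℤ) ≤ q.2 j - q.1 j}),
      α - ε < boxRatio S q :=
    frequently_lt_of_lt_limsup hcob (lt_of_lt_of_le (by linarith) h)
  obtain ⟨q, hq1, hq2⟩ := (h1.and_eventually (h0 (N + 1))).exists
  have hq3 : ∀ j, ((N + 1 : ℕ) : ℤ) ≤ q.2 j - q.1 j := hq2
  refine ⟨q.1, q.2, fun j => ?_, ?_⟩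
  · have := hq3 j
    push_cast at this
    linarith
  · have hpos : 0 < ∏ j, ((q.2 j : ℝ) - (q.1 j : ℝ)) := by
      refine Finset.prod_pos fun j _ => ?_
      have h3 := hq3 j
      have h4 : q.1 j < q.2 j := by
        push_cast at h3
        linarith
      have h5 : (q.1 j : ℝ) < q.2 j := by exact_mod_cast h4
      exact sub_pos.2 h5
    unfold boxRatio at hq1
    exact ((lt_div_iff₀ hpos).1 hq1).le

/-- **Uniform scale.** For every `d ≥ 2` and every `α > 0` there is `k ≥ 1` such that every set `E`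
of trace-zero integer `d × d` matrices with upper Banach density at least `α` is `k`-good. -/
theorem result : ∀ d : ℕ, 2 ≤ d → ∀ α : ℝ, 0 < α → ∃ k : ℕ, 1 ≤ k ∧
    ∀ E : Set (Matrix (Fin d) (Fin d) ℤ), (∀ X ∈ E, X.trace = 0) →
      α ≤ upperBanach (coords '' E) → IsGood k E := by
  intro d hd α hα
  obtain ⟨k, hk, h⟩ := Pool.Agent.USC.uniform_scale d hd α hα
  exact ⟨k, hk, fun E hE hdens A hA => h E hE (dense_of_le _ _ hdens) A hA⟩

end

end Pool.Agent.Results.MP_4086d8_co.UniformScale
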